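import Pool.Agent.Lib.MP_d404b9_ag.Main5
import Pool.Agent.Lib.MP_d404b9_ag.Extract

/-!
# A compact reduced complex space which embeds in no complex manifold

The space is the Hopf threefold `(ℂ³ ∖ 0)/(z ~ 2z)`, pinched at the point `[e1]`: near this point the
holomorphic functions are the holomorphic functions of
`(w_0², w_0³, w_1, w_2, w_0 w_1, w_0 w_2)`, where `w = z - e1`.

If it were a subvariety of a complex manifold `M`, then the pull back of the tangent bundle of `M` to
the Hopf threefold would have a holomorphic section (the image of the Euler vector field) whose zero
scheme is, near `[e1]`, contained in the ideal of the point but which does not vanish elsewhere on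
the elliptic curve through this point. Twisting by a flat line bundle, vanishing of cohomology and a
Koszul complex show that no such bundle exists.
-/

set_option autoImplicit false

open scoped Manifold ContDiff

namespace Pool.Agent.Results.MP_d404b9_ag.NotEmbeddable

open Pool.Agent.HopfEmb

/-- There is a compact reduced complex analytic space which is not biholomorphically equivalent to a
subvariety of a complex manifold. -/
theorem result.{u} : ∃ (X : Type) (_ : TopologicalSpace X) (_ : CompactSpace X) (_ : T2Space X)
    (𝒪 : ReducedComplexSpace X), ∀ (N : ℕ) (M : Type u) [TopologicalSpace M]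
      [ChartedSpace (EuclideanSpace ℂ (Fin N)) M]
      [IsManifold (𝓘(ℂ, EuclideanSpace ℂ (Fin N))) ω M], ¬ EmbedsIn 𝒪 N M := by
  refine ⟨HopfX, inferInstance, inferInstance, inferInstance, hopfSpace, ?_⟩
  intro N M _ _ _ h
  obtain ⟨n, ⟨D⟩⟩ := hopfData_of_embeds h
  exact no_hopfData D

end Pool.Agent.Results.MP_d404b9_ag.NotEmbeddable
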